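import Pool.Agent.H895R3.NU.G2

/-!
# Consecutive integers avoiding prime factors in `(k, 2k)`: the conjectured upper bound away from `k`

`n_k` is the least `n ≥ 2k` such that no prime `p` with `k < p < 2k` divides `(n-1)(n-2)⋯(n-k)`; Erdős
conjectured `n_k < e^(o(k))`.  We prove this bound when the primes very close to `k` are left out: for every
`θ < ε` there is, for all large `k`, an integer `2k ≤ n ≤ e^(εk)` such that no prime `p` with
`k + k^(1-θ) < p < 2k` divides `(n-1)(n-2)⋯(n-k)`, and for every `η > 0` there is one with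
`2k ≤ n ≤ e^(C k / log k)` for the primes `(1+η)k < p < 2k`.

Proof.  By the pigeonhole principle there is a multiple `m` of `4k`, of size at most `4k · Q^π`, which is
within `p / Q` of a multiple of `p` for every prime `p` of the range; `n = m - ⌊w/2⌋` has the required
property for the primes `p > k + w` when `Q > 8k/w`.
-/

namespace Pool.Agent.Results.MP_9698ab_nt.AwayFromK

open Finset

/-- `AdmissibleBeyond x k n`: `n ≥ 2k`, and `(n-1)(n-2)⋯(n-k)` is divisible by no prime `p` with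
`x < p < 2k`.  For `x = k` this is the condition defining `n_k`. -/
def AdmissibleBeyond (x : ℝ) (k n : ℕ) : Prop :=
  2 * k ≤ n ∧ ∀ p : ℕ, p.Prime → x < p → p < 2 * k → ¬ p ∣ ∏ i ∈ Finset.Icc 1 k, (n - i)

/-- The bound `e^(o(k))` away from `k`: an explicit form, the form with the primes of
`(k + k^(1-θ), 2k)`, and the form with the primes of `((1+η)k, 2k)`. -/
theorem result :
    (∀ k w : ℕ, 4 ≤ w → w ≤ k → ∃ n : ℕ, AdmissibleBeyond (k + w) k n ∧
      n ≤ 4 * k * (8 * k / w + 1) ^ ((Finset.Ioc k (2 * k)).filter Nat.Prime).card) ∧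
    (∀ θ ε : ℝ, 0 < θ → θ < 1 → θ < ε → ∃ k₀ : ℕ, ∀ k : ℕ, k₀ ≤ k → ∃ n : ℕ,
      AdmissibleBeyond (k + (k : ℝ) ^ (1 - θ)) k n ∧ (n : ℝ) ≤ Real.exp (ε * k)) ∧
    (∀ η : ℝ, 0 < η → η ≤ 1 → ∃ C : ℝ, ∃ k₀ : ℕ, ∀ k : ℕ, k₀ ≤ k → ∃ n : ℕ,
      AdmissibleBeyond ((1 + η) * k) k n ∧ (n : ℝ) ≤ Real.exp (C * (k / Real.log k))) := by
  have key : ∀ (x : ℝ) (k n : ℕ), 2 * k ≤ n →
      (∀ p : ℕ, p.Prime → x < p → p < 2 * k → ∀ i ∈ Icc 1 k, ¬ p ∣ n - i) →
      AdmissibleBeyond x k n := by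
    intro x k n h1 h2
    refine ⟨h1, fun p hp hp1 hp2 hdvd => ?_⟩
    rw [Prime.dvd_finsetProd_iff hp.prime] at hdvd
    obtain ⟨i, hi, hd⟩ := hdvd
    exact h2 p hp hp1 hp2 i hi hd
  refine ⟨fun k w h1 h2 => ?_, fun θ ε h1 h2 h3 => ?_, fun η h1 h2 => ?_⟩
  · obtain ⟨n, a, b, c⟩ := Pool.Agent.H895R3.NU.away_explicit k w h1 h2
    exact ⟨n, key _ _ _ a fun p hp hp1 hp2 => c p hp (by exact_mod_cast hp1) hp2, b⟩
  · obtain ⟨k₀, h⟩ := Pool.Agent.H895R3.NU.away_asymp θ ε h1 h2 h3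
    refine ⟨k₀, fun k hk => ?_⟩
    obtain ⟨n, a, b, c⟩ := h k hk
    exact ⟨n, key _ _ _ a c, b⟩
  · obtain ⟨C, k₀, h⟩ := Pool.Agent.H895R3.NU.away_const η h1 h2
    refine ⟨C, k₀, fun k hk => ?_⟩
    obtain ⟨n, a, b, c⟩ := h k hk
    exact ⟨n, key _ _ _ a c, b⟩

end Pool.Agent.Results.MP_9698ab_nt.AwayFromK
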