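import Pool.Agent.H895R3.NK.E7

/-!
# Consecutive integers avoiding prime factors in `(k, 2k)`: `n_k > k^d` for every `d`

`n_k` is the least `n ≥ 2k` such that no prime `p` with `k < p < 2k` divides `(n-1)(n-2)⋯(n-k)`.
We prove Erdős' conjectured lower bound: `n_k > k^d` for every fixed `d` and all large `k`.

Proof.  If `n` is admissible then `n mod p ∈ {0} ∪ (k, p)` for all primes `p ∈ (k, 2k)`, so that
`-2 sin(2πn/p) + cos(4πn/p) ≥ 1`.  For `k (log k)^14 ≤ n ≤ k^d` this contradicts the estimate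
`∑_{k < m ≤ 2k} Λ(m) e(hn/m) = o(k)`, `h = 1, 2` (Vaughan's identity; Weyl - van der Corput
differencing and Kusmin-Landau for the sums of type I and II).  For `2k ≤ n < k (log k)^14` there is a
multiple of a prime of `(k, 2k)` by the prime number theorem with an error term `x / (log x)^16`.
-/

namespace Pool.Agent.Results.MP_9698ab_nt.SuperPolynomial

open Finset

/-- `n` is admissible for `k`: `n ≥ 2k`, and the product `(n-1)(n-2)⋯(n-k)` is divisible by no prime `p`
with `k < p < 2k`. -/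
def Admissible (k n : ℕ) : Prop :=
  2 * k ≤ n ∧ ∀ p : ℕ, p.Prime → k < p → p < 2 * k → ¬ p ∣ ∏ i ∈ Finset.Icc 1 k, (n - i)

/-- `n_k`, the least admissible integer. -/
noncomputable def leastAdmissible (k : ℕ) : ℕ := sInf {n : ℕ | Admissible k n}

/-- the product of the primes in `(k, 2k)`, times two, is admissible -/
theorem exists_admissible (k : ℕ) (_ : 2 ≤ k) : ∃ n, Admissible k n := by
  set P := ∏ p ∈ (Ioo k (2 * k)).filter Nat.Prime, p with hP
  have hP0 : 0 < P := prod_pos fun p hp => (mem_filter.1 hp).2.pos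
  refine ⟨2 * k * P, Nat.le_mul_of_pos_right _ hP0, fun p hp h1 h2 hdvd => ?_⟩
  rw [Prime.dvd_finsetProd_iff hp.prime] at hdvd
  obtain ⟨i, hi, hd⟩ := hdvd
  rw [mem_Icc] at hi
  have hpP : p ∣ 2 * k * P := by
    apply Dvd.dvd.mul_left
    exact dvd_prod_of_mem (fun p => p) (by rw [mem_filter, mem_Ioo]; exact ⟨⟨h1, h2⟩, hp⟩)
  have hle : i ≤ 2 * k * P := by
    have : 2 * k * 1 ≤ 2 * k * P := Nat.mul_le_mul_left _ hP0
    omega
  have : p ∣ i := by
    have h3 := (Nat.dvd_sub_iff_right hle hpP).1 hd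
    exact h3
  have := Nat.le_of_dvd (by omega) this
  omega

/-- **Erdős' conjectured lower bound.** For every `d`, `n_k > k^d` for all large `k`. -/
theorem result : ∀ d : ℕ, ∃ k₀ : ℕ, ∀ k : ℕ, k₀ ≤ k →
    Admissible k (leastAdmissible k) ∧ k ^ d < leastAdmissible k := by
  intro d
  obtain ⟨k₀, h⟩ := Pool.Agent.H895R3.NK.lower_bound d
  refine ⟨k₀ + 2, fun k hk => ?_⟩
  have hne : {n : ℕ | Admissible k n}.Nonempty := exists_admissible k (by omega)
  have hmem : Admissible k (leastAdmissible k) := Nat.sInf_mem hne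
  exact ⟨hmem, h k (by omega) _ hmem⟩

end Pool.Agent.Results.MP_9698ab_nt.SuperPolynomial
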