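import Pool.Agent.H895R3.NU.F5

/-!
# Consecutive integers avoiding prime factors in `(k, 2k)`: `n_k ≤ e^((1-c)k)`

`n_k` is the least `n ≥ 2k` such that no prime `p` with `k < p < 2k` divides `(n-1)(n-2)⋯(n-k)`.
Multiples of the product of all the primes of `(k, 2k)` are admissible, whence `n_k ≤ e^((1+o(1))k)`.
We save a positive proportion in the exponent: `n_k ≤ e^((1-c)k)` for some `c > 0` and all large `k`.

Proof.  Let `E` be the product of the primes of `(k, 3k/2]` and let `L` be the set of the `K` primes of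
`(3k/2, 2k)`.  We look for `n = (a + b) E` with `1 ≤ a, b ≤ N` such that `-n mod p` lies in `[0, p-k)` for
all `p ∈ L`, where `N = 4 · 2^K (2k)^D` with `D = (1-η) K`.  Expanding the (self-convolved) windows in
characters, the frequencies which matter are the vectors `h ∈ ∏_{p ∈ L} ℤ/p` for which
`E ∑ h_p / p` is within `1/N` of an integer; such a nonzero `h` has more than `D` nonzero coordinates, all
but `K - D` of which are determined by the others, and every nonzero coordinate costs a factor
`cos(π/24) < 1`.  For small `η` the total contribution of the nonzero `h` is less than the main term.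
-/

namespace Pool.Agent.Results.MP_9698ab_nt.UpperExponent

open Finset

/-- `n` is admissible for `k`: `n ≥ 2k`, and the product `(n-1)(n-2)⋯(n-k)` is divisible by no prime `p`
with `k < p < 2k`. -/
def Admissible (k n : ℕ) : Prop :=
  2 * k ≤ n ∧ ∀ p : ℕ, p.Prime → k < p → p < 2 * k → ¬ p ∣ ∏ i ∈ Finset.Icc 1 k, (n - i)

/-- `n_k`, the least admissible integer. -/
noncomputable def leastAdmissible (k : ℕ) : ℕ := sInf {n : ℕ | Admissible k n}

/-- **An exponential saving over the trivial upper bound.** There is `c > 0` such that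
`n_k ≤ e^((1-c)k)` for all large `k`. -/
theorem result : ∃ c : ℝ, 0 < c ∧ ∃ k₀ : ℕ, ∀ k : ℕ, k₀ ≤ k →
    Admissible k (leastAdmissible k) ∧ (leastAdmissible k : ℝ) ≤ Real.exp ((1 - c) * k) := by
  obtain ⟨c, hc, k₀, h⟩ := Pool.Agent.H895R3.NU.upper_bound
  refine ⟨c, hc, k₀, fun k hk => ?_⟩
  obtain ⟨n, h1, h2, h3⟩ := h k hk
  have hn : Admissible k n := by
    refine ⟨h1, fun p hp hp1 hp2 hdvd => ?_⟩
    rw [Prime.dvd_finsetProd_iff hp.prime] at hdvd
    obtain ⟨i, hi, hd⟩ := hdvd
    exact h3 p hp hp1 hp2 i hi hd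
  have hne : {n : ℕ | Admissible k n}.Nonempty := ⟨n, hn⟩
  have hmem : Admissible k (leastAdmissible k) := Nat.sInf_mem hne
  have hle : leastAdmissible k ≤ n := Nat.sInf_le hn
  have hle' : (leastAdmissible k : ℝ) ≤ n := by exact_mod_cast hle
  exact ⟨hmem, hle'.trans h2⟩

end Pool.Agent.Results.MP_9698ab_nt.UpperExponent
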